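import Pool.Agent.Helper75.Reducts.Gen

/-!
# One-basedness
-/

namespace Reducts

open Equiv MulAction
open scoped Pointwise

namespace Ctx

variable {M : Type*} [Group M] {X : Ctx M} {Ω : Type*} [MulAction M Ω] {Ω' : Type*}
  [MulAction M Ω'] {Ω'' : Type*} [MulAction M Ω'']

/-! ## Ultrafilters -/

theorem IsUlt.separate_two {U V : Set (Set Ω)} (hU : X.IsUlt U) (hV : X.IsUlt V) (h : U ≠ V) :
    ∃ Q, Q ∈ U ∧ Qᶜ ∈ V := by
  by_contra hcon
  push Not at hcon
  apply h
  apply Set.Subset.antisymm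
  · intro Q hQ
    rcases hV.compl Q (hU.cont Q hQ) with h1 | h1
    · exact h1
    · exact absurd h1 (hcon Q hQ)
  · intro Q hQ
    rcases hU.compl Q (hV.cont Q hQ) with h1 | h1
    · exact h1
    · have := hcon _ h1
      rw [compl_compl] at this
      exact absurd hQ this

theorem IsUlt.iInter {U : Set (Set Ω)} (hU : X.IsUlt U) {ι : Type*} (s : Finset ι)
    (P : ι → Set Ω) (h : ∀ i ∈ s, P i ∈ U) : (⋂ i ∈ s, P i) ∈ U := by
  classical
  induction s using Finset.induction_on with
  | empty => simpa using hU.univ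
  | insert a s ha ih =>
    rw [Finset.set_biInter_insert]
    exact hU.inter _ (h a (Finset.mem_insert_self _ _)) _
      (ih (fun i hi => h i (Finset.mem_insert_of_mem hi)))

theorem IsUlt.separate {n : ℕ} {U : Fin n → Set (Set Ω)} (hU : ∀ i, X.IsUlt (U i))
    (hne : ∀ i j, i ≠ j → U i ≠ U j) :
    ∃ P : Fin n → Set Ω, (∀ i, P i ∈ U i) ∧ ∀ i j, i ≠ j → P i ∩ P j = ∅ := by
  classical
  have hsep : ∀ i j, ∃ Q : Set Ω, i ≠ j → Q ∈ U i ∧ Qᶜ ∈ U j := by
    intro i j
    by_cases hij : i = j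
    · exact ⟨∅, fun h => absurd hij h⟩
    · obtain ⟨Q, hQ⟩ := (hU i).separate_two (hU j) (hne i j hij)
      exact ⟨Q, fun _ => hQ⟩
  choose Q hQ using hsep
  refine ⟨fun i => ⋂ j ∈ Finset.univ.filter (fun j => i ≠ j), (Q i j ∩ (Q j i)ᶜ), ?_, ?_⟩
  · intro i
    apply (hU i).iInter
    intro j hj
    have hij := (Finset.mem_filter.1 hj).2
    exact (hU i).inter _ (hQ i j hij).1 _ (hQ j i hij.symm).2
  · intro i j hij
    ext x
    simp only [Set.mem_inter_iff, Set.mem_iInter, Finset.mem_filter, Finset.mem_univ, true_and,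
      Set.mem_compl_iff, Set.mem_empty_iff_false, iff_false, not_and]
    intro h1 h2
    exact (h2 i hij.symm).2 (h1 j hij).1

/-! ## Subgroups -/

theorem exists_open_le {n : ℕ} {U : Fin n → Subgroup M} (hU : ∀ i, X.opn (U i)) :
    ∃ C : Subgroup M, X.opn C ∧ ∀ i, C ≤ U i := by
  induction n with
  | zero => exact ⟨⊤, X.opn_top, fun i => i.elim0⟩
  | succ n ih =>
    obtain ⟨C, hC, hle⟩ := ih (U := fun i => U i.castSucc) (fun i => hU _)
    refine ⟨C ⊓ U (Fin.last n), X.opn_inf hC (hU _), fun i => ?_⟩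
    refine Fin.lastCases ?_ (fun i => ?_) i
    · exact inf_le_right
    · exact inf_le_left.trans (hle i)

theorem ext_conn {A C : Subgroup M} (hA : X.opn A) (hC : X.opn C) :
    X.ext (X.conn A) C = X.conn (A ⊓ C) := by
  unfold ext
  apply conn_eq_of_FI (X.opn_inf (opn_conn hA) hC) (inf_le_inf_right _ (conn_le hA))
  exact ((FI_conn hA).mono le_rfl inf_le_left).inf (FI.of_le inf_le_right)

theorem cj_conn_stab {x : Ω} (hx : X.Cont x) (m : M) :
    cj m (X.conn (stabilizer M x)) = X.conn (stabilizer M (m • x)) := by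
  rw [stab_smul, conn_cj hx]

theorem Has.eq_supp_of_conn {A : Subgroup M} (hA : X.opn A) : X.supp (X.conn A) = X.supp A := by
  apply Finset.Subset.antisymm
  · exact supp_subset (opn_conn hA) (has_conn hA (has_supp hA))
  · exact supp_anti (opn_conn hA) (conn_le hA)

/-! ## Generic types -/

theorem gen_of_le {N N' : Subgroup M} (hN : X.Cn N) (hN' : X.Cn N') (hle : N ≤ N') {a : Ω}
    (ha : X.Cont a) (h : N' ≤ stabilizer M (X.gen N a)) : X.gen N' a = X.gen N a := by
  apply gen_eq hN' ha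
  have hg := isGen_gen hN ha
  exact ⟨hg.ult, h, hg.ult.mono _ hg.mem _ (cont_orb hN'.opn a) (orb_mono hle a)⟩

theorem le_conn_gen {N : Subgroup M} (hN : X.Cn N) {a : Ω} (ha : X.Cont a) :
    N ≤ X.conn (stabilizer M (X.gen N a)) :=
  hN.le_conn (cont_gen hN ha) (isGen_gen hN ha).inv

theorem gen_conn_gen {N : Subgroup M} (hN : X.Cn N) {a : Ω} (ha : X.Cont a) :
    X.gen (X.conn (stabilizer M (X.gen N a))) a = X.gen N a :=
  gen_of_le hN (cn_conn (cont_gen hN ha)) (le_conn_gen hN ha) ha (conn_le (cont_gen hN ha))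

theorem eqv_fst : Eqv (M := M) (Prod.fst : Ω × Ω' → Ω) := fun _ _ => rfl

theorem eqv_snd : Eqv (M := M) (Prod.snd : Ω × Ω' → Ω') := fun _ _ => rfl

theorem stab_gen_le_map {f : Ω → Ω'} (hf : Eqv (M := M) f) {N : Subgroup M} (hN : X.Cn N) {a : Ω}
    (ha : X.Cont a) (hfa : X.Cont (f a)) :
    stabilizer M (X.gen N a) ≤ stabilizer M (X.gen N (f a)) := by
  have hu := (isGen_gen hN hfa).ult
  have hua := (isGen_gen hN ha).ult
  intro m hm
  rw [mem_stabilizer_iff] at hm ⊢
  ext P
  rw [Set.mem_smul_set_iff_inv_smul_mem]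
  by_cases hP : X.Cont P
  · rw [← gen_preimage hf hN ha hP, ← gen_preimage hf hN ha (hP.smul m⁻¹), ← smul_preimage hf,
      ← Set.mem_smul_set_iff_inv_smul_mem, hm]
  · constructor
    · intro h
      exact absurd (cont_smul_iff.1 (hu.cont _ h)) hP
    · intro h
      exact absurd (hu.cont _ h) hP

theorem exists_stab_eq {C : Subgroup M} : stabilizer M ((1 : M) : M ⧸ C) = C :=
  MulAction.stabilizer_quotient C

/-- a set supported by `S` belongs to `q y S` iff it contains `y`. -/
theorem mem_q_of_has {y : Ω} (hy : X.Cont y) {S : Finset ℕ} {P : Set Ω} (hP : X.Cont P)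
    (hS : X.Sup S P) : P ∈ X.q y S ↔ y ∈ P :=
  mem_q_self hy hP (fun _ _ hiS hi => hiS (sp_subset hP hS hi))

/-! ## Finite orbits -/

theorem finite_orbit_claim {a : Ω} {e : Ω'} {f : Ω''} (ha : X.Cont a) (he : X.Cont e)
    (hf : X.Cont f) (hind : X.Ind (X.conn (stabilizer M f)) a (stabilizer M e)) :
    (orb (stabilizer M (X.gen (X.conn (stabilizer M e)) f))
      (X.gen (X.conn (stabilizer M e)) (a, f))).Finite := by
  classical
  by_contra hinf
  have hinf' : (orb (stabilizer M (X.gen (X.conn (stabilizer M e)) f))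
      (X.gen (X.conn (stabilizer M e)) (a, f))).Infinite := hinf
  have hNe : X.Cn (X.conn (stabilizer M e)) := cn_conn he
  have hNf : X.Cn (X.conn (stabilizer M f)) := cn_conn hf
  set Ne := X.conn (stabilizer M e) with hNe_def
  set Nf := X.conn (stabilizer M f) with hNf_def
  have haf : X.Cont (a, f) := ha.prod hf
  set p := X.gen Ne f with hp_def
  set π := X.gen Ne (a, f) with hπ_def
  obtain ⟨F, hF, hFI⟩ := FI_conn hf
  -- the representatives `m i`
  have hm : ∃ m : ℕ → M, (∀ i, m i ∈ stabilizer M p) ∧ ∀ i j, i ≠ j → m i • π ≠ m j • π := by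
    have := fun i => (hinf'.natEmbedding _ i).2
    choose m hm hm' using this
    refine ⟨m, hm, fun i j hij h => hij ?_⟩
    rw [hm', hm'] at h
    exact (hinf'.natEmbedding _).injective (Subtype.ext h)
  obtain ⟨m, hmp, hmne⟩ := hm
  set r := hF.toFinset.card with hr
  let U : Fin (r + 1) → Set (Set (Ω × Ω'')) := fun i => m i • π
  have hUgen : ∀ i, U i = X.gen (cj (m i) Ne) (m i • (a, f)) := fun i =>
    (gen_smul hNe haf (m i)).symm
  have hU : ∀ i, X.IsUlt (U i) := by
    intro i
    rw [hUgen]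
    exact (isGen_gen (hNe.cj _) (haf.smul _)).ult
  obtain ⟨P, hPU, hPdisj⟩ := IsUlt.separate hU (fun i j hij => hmne i j (fun h => hij (Fin.ext h)))
  have hPc : ∀ i, X.Cont (P i) := fun i => (hU i).cont _ (hPU i)
  obtain ⟨C, hC, hCle⟩ := exists_open_le (X := X)
    (U := fun i => stabilizer M (P i) ⊓ stabilizer M (m i • e))
    (fun i => X.opn_inf (hPc i) (he.smul _))
  have hCP : ∀ i : Fin (r + 1), C ≤ stabilizer M (P i) := fun i => (hCle i).trans inf_le_left
  have hCe : ∀ i : Fin (r + 1), C ≤ stabilizer M (m i • e) := fun i => (hCle i).trans inf_le_right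
  have hSC := has_supp hC
  set S := X.supp C with hS_def
  have hK : X.Cn (X.conn C) := cn_conn hC
  have hKC : X.conn C ≤ C := conn_le hC
  have hSK : X.Has S (X.conn C) := has_conn hC hSC
  set K := X.conn C with hK_def
  -- the groups `Ni`
  have hNi : ∀ i : Fin (r + 1), X.Cn (cj (m i) Ne) := fun i => hNe.cj _
  have hNi_eq : ∀ i : Fin (r + 1), cj (m i) Ne = X.conn (stabilizer M (m i • e)) := fun i =>
    cj_conn_stab he _
  have hKNi : ∀ i : Fin (r + 1), K ≤ cj (m i) Ne := by
    intro i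
    rw [hNi_eq]
    exact hK.le_conn (he.smul _) (hKC.trans (hCe i))
  have hSNi : ∀ i : Fin (r + 1), X.Has S (cj (m i) Ne) := fun i => hSK.mono subset_rfl (hKNi i)
  have hNiU : ∀ i : Fin (r + 1), cj (m i) Ne ≤ stabilizer M (U i) := by
    intro i
    rw [hUgen]
    exact (isGen_gen (hNi i) (haf.smul _)).inv
  -- good representatives
  have hrep : ∀ i : Fin (r + 1), ∃ y ∈ orb (cj (m i) Ne) (m i • (a, f)), U i = X.q y S := by
    intro i
    obtain ⟨y, hy, hq, _⟩ := exists_rep (hNi i).opn (hSNi i) (haf.smul (m i)) (hU i)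
      ((hSNi i).mono subset_rfl (hNiU i)) (by
        rw [hUgen]
        exact (isGen_gen (hNi i) (haf.smul _)).mem) ∅
    exact ⟨y, hy, hq⟩
  choose y hy hyq using hrep
  have hyc : ∀ i, X.Cont (y i) := by
    intro i
    obtain ⟨n, _, hn⟩ := hy i
    rw [← hn]
    exact (haf.smul _).smul _
  have hyP : ∀ i, y i ∈ P i := by
    intro i
    rw [← mem_q_of_has (hyc i) (hPc i) (hSC.mono subset_rfl (hCP i)), ← hyq]
    exact hPU i
  -- representatives as images of `(a, f)`
  have ht : ∀ i : Fin (r + 1), ∃ t ∈ cj (m i) Ne, t • m i • (a, f) = y i := fun i => hy i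
  choose t ht hty using ht
  -- `p` is the type of all second components
  have hpq : ∀ i, p = X.q (y i).2 S := by
    intro i
    have hy2 : X.Cont (y i).2 := by
      rw [← hty]
      exact (hf.smul _).smul _
    have h1 : p = X.gen (cj (m i) Ne) (m i • f) := by
      rw [gen_smul hNe hf, ← hp_def]
      exact (mem_stabilizer_iff.1 (hmp i)).symm
    have hpu : X.IsUlt p := (isGen_gen hNe hf).ult
    have hqu : X.IsUlt (X.q (y i).2 S) := isUlt_q hy2 S
    ext Q
    by_cases hQ : X.Cont Q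
    · rw [← q_preimage eqv_snd (hyc i) hQ, ← hyq, hUgen, gen_preimage eqv_snd (hNi i)
        (haf.smul (m i)) hQ, h1]
      rfl
    · constructor
      · intro h
        exact absurd (hpu.cont _ h) hQ
      · intro h
        exact absurd (hqu.cont _ h) hQ
  have hpu : X.IsUlt p := (isGen_gen hNe hf).ult
  have hy2c : ∀ i, X.Cont (y i).2 := by
    intro i
    rw [← hty]
    exact (hf.smul _).smul _
  have horbp : ∀ i, orb K (y i).2 ∈ p := by
    intro i
    rw [hpq i, mem_q_of_has (hy2c i) (cont_orb hK.opn _) (sup_orb hSK _)]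
    exact mem_orb_self _ _
  have hsame : ∀ i, ∃ n ∈ K, n • (y i).2 = (y 0).2 := by
    intro i
    have hne := hpu.nonempty (hpu.inter _ (horbp 0) _ (horbp i))
    have h2 := orb_eq_of_inter hne
    have : (y 0).2 ∈ orb K (y i).2 := by
      rw [← h2]
      exact mem_orb_self _ _
    exact this
  choose n hnK hny using hsame
  let h : Fin (r + 1) → M := fun i => n i * (t i * m i)
  let b : Fin (r + 1) → Ω := fun i => h i • a
  let f0 : Ω'' := (y 0).2
  have hf0 : X.Cont f0 := hy2c 0
  have hh : ∀ i, h i • (a, f) = n i • y i := by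
    intro i
    rw [← hty]
    simp only [h, mul_smul]
  have hhf : ∀ i, h i • f = f0 := by
    intro i
    have := congrArg Prod.snd (hh i)
    simp only [Prod.smul_snd] at this
    rw [this, hny]
  have hhaf : ∀ i, n i • y i = (b i, f0) := by
    intro i
    rw [← hh i]
    exact Prod.ext rfl (hhf i)
  have hhe : ∀ i : Fin (r + 1), h i • e = m i • e := by
    intro i
    simp only [h, mul_smul]
    have h1 : t i • m i • e = m i • e := by
      have := ht i
      rw [hNi_eq] at this
      exact mem_stabilizer_iff.1 (conn_le (he.smul _) this)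
    rw [h1]
    exact mem_stabilizer_iff.1 (hCe i (hKC (hnK i)))
  have hb : ∀ i, X.Cont (b i) := fun i => ha.smul _
  set Nf0 := X.conn (stabilizer M f0) with hNf0_def
  have hNf0 : X.Cn Nf0 := cn_conn hf0
  have hcj : ∀ i, cj (h i) Nf = Nf0 := by
    intro i
    rw [hNf_def, cj_conn_stab hf, hhf]
  -- (1)
  have ind1 : ∀ i : Fin (r + 1), X.Ind Nf0 (b i) (stabilizer M (m i • e)) := by
    intro i
    have := (ind_smul (C := stabilizer M e) hNf ha (h i)).2 hind
    rwa [hcj, ← stab_smul, hhe] at this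
  -- (2)
  have ind2 : ∀ i : Fin (r + 1), X.Ind (cj (m i) Ne) (b i, f0) C := by
    intro i
    unfold Ind
    have e1 : X.gen (cj (m i) Ne) (b i, f0) = U i := by
      rw [hUgen]
      apply gen_orb (hNi i) (haf.smul _)
      rw [← hhaf]
      exact orb_trans (hy i) (smul_mem_orb (hKNi i (hnK i)) _)
    have e2 : orb (cj (m i) Ne ⊓ C) (b i, f0) = orb (cj (m i) Ne ⊓ C) (y i) := by
      rw [← hhaf]
      apply orb_eq
      exact smul_mem_orb (Subgroup.mem_inf.2 ⟨hKNi i (hnK i), hKC (hnK i)⟩) _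
    rw [e1, e2, hyq, mem_q_of_has (hyc i) (cont_orb (X.opn_inf (hNi i).opn hC) _)
      (sup_orb ((hSNi i).inf hSC) _)]
    exact mem_orb_self _ _
  -- (3)
  have hu : X.Cont ((1 : M) : M ⧸ C) := by
    unfold Cont
    rw [exists_stab_eq]
    exact hC
  have ind3 : ∀ i : Fin (r + 1), X.Ind (X.ext (cj (m i) Ne) (stabilizer M f0)) (b i) C := by
    intro i
    have h1 : X.Ind (cj (m i) Ne) (b i, f0) (stabilizer M ((1 : M) : M ⧸ C)) := by
      rw [exists_stab_eq]
      exact ind2 i
    have h2 := ind_symm (hNi i) ((hb i).prod hf0) hu h1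
    rw [stab_prod, inf_comm, ind_inf (hNi i) hf0 (hb i) hu] at h2
    have h3 := ind_symm (cn_ext (hNi i).opn hf0) hu (hb i) h2.2
    rwa [exists_stab_eq] at h3
  -- (4), (5)
  have ind5 : ∀ i : Fin (r + 1), X.Ind Nf0 (b i) C := by
    intro i
    have e1 : X.ext (cj (m i) Ne) (stabilizer M f0) = X.ext Nf0 (stabilizer M (m i • e)) := by
      rw [hNi_eq, ext_conn (he.smul _) hf0, hNf0_def, ext_conn hf0 (he.smul _), inf_comm]
    have h1 := (ind_inf hNf0 (he.smul (m i)) hC (hb i)).2 ⟨ind1 i, e1 ▸ ind3 i⟩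
    rwa [inf_eq_right.2 (hCe i)] at h1
  -- (6) pigeonhole
  have hc : ∀ i, ∃ g ∈ F, g⁻¹ * ((h 0)⁻¹ * h i) ∈ Nf := by
    intro i
    apply hFI
    rw [mem_stabilizer_iff, mul_smul, hhf, inv_smul_eq_iff, hhf]
  choose g hgF hg using hc
  obtain ⟨i, j, hij, hgij⟩ : ∃ i j : Fin (r + 1), i ≠ j ∧ g i = g j := by
    have hcard : hF.toFinset.card < (Finset.univ : Finset (Fin (r + 1))).card := by
      rw [Finset.card_univ, Fintype.card_fin]
      exact Nat.lt_succ_self _
    obtain ⟨i, _, j, _, hij, hgij⟩ := Finset.exists_ne_map_eq_of_card_lt_of_maps_to hcard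
      (f := g) (fun i _ => by
        rw [Finset.mem_coe, hF.mem_toFinset]
        exact hgF i)
    exact ⟨i, j, hij, hgij⟩
  have horb : b j ∈ orb Nf0 (b i) := by
    refine ⟨h j * (h i)⁻¹, ?_, ?_⟩
    · rw [← hcj i, mem_cj]
      have h1 := Nf.mul_mem (Nf.inv_mem (hg i)) (hg j)
      rw [hgij] at h1
      have e1 : (g j)⁻¹ * ((h 0)⁻¹ * h i) = (g j)⁻¹ * (h 0)⁻¹ * h i := by rw [mul_assoc]
      have e2 : ((g j)⁻¹ * ((h 0)⁻¹ * h i))⁻¹ * ((g j)⁻¹ * ((h 0)⁻¹ * h j)) =
          (h i)⁻¹ * (h j * (h i)⁻¹) * h i := by group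
      rwa [e2] at h1
    · simp only [b]
      rw [smul_smul, inv_mul_cancel_right]
  -- (7)
  obtain ⟨k, hk, hkb⟩ := ind_stat hNf0 hC (hb i) (ind5 i) (ind5 j) horb
  have hbi : (b i, f0) ∈ P i := by
    rw [← hhaf, ← mem_stabilizer_iff.1 (hCP i (hKC (hnK i)))]
    exact Set.smul_mem_smul_set (hyP i)
  have hbj : (b j, f0) ∈ P j := by
    rw [← hhaf, ← mem_stabilizer_iff.1 (hCP j (hKC (hnK j)))]
    exact Set.smul_mem_smul_set (hyP j)
  have hbj' : (b j, f0) ∈ P i := by
    rw [← mem_stabilizer_iff.1 (hCP i (Subgroup.mem_inf.1 hk).2)]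
    have : (b j, f0) = k • (b i, f0) := by
      apply Prod.ext
      · exact hkb.symm
      · exact (mem_stabilizer_iff.1 (conn_le hf0 (Subgroup.mem_inf.1 hk).1)).symm
    rw [this]
    exact Set.smul_mem_smul_set hbi
  have := hPdisj i j hij
  have h2 : (b j, f0) ∈ P i ∩ P j := ⟨hbj', hbj⟩
  rw [this] at h2
  exact h2

/-- under the hypothesis of `finite_orbit_claim`, the connected stabiliser of
`gen N_e f` stabilises `gen N_e a`. -/
theorem conn_stab_gen_le {a : Ω} {e : Ω'} {f : Ω''} (ha : X.Cont a) (he : X.Cont e)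
    (hf : X.Cont f) (hind : X.Ind (X.conn (stabilizer M f)) a (stabilizer M e)) :
    X.conn (stabilizer M (X.gen (X.conn (stabilizer M e)) f)) ≤
      stabilizer M (X.gen (X.conn (stabilizer M e)) a) := by
  have hNe : X.Cn (X.conn (stabilizer M e)) := cn_conn he
  have hp : X.Cont (X.gen (X.conn (stabilizer M e)) f) := cont_gen hNe hf
  have hπ : X.Cont (X.gen (X.conn (stabilizer M e)) (a, f)) := cont_gen hNe (ha.prod hf)
  have h1 := FI_iff_orb_finite.2 (finite_orbit_claim ha he hf hind)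
  exact (conn_min hp hπ h1).trans (stab_gen_le_map eqv_fst hNe (ha.prod hf) ha)

/-- a principal generic type has the same stabiliser as its realisation. -/
theorem stab_le_gen_of_le {N : Subgroup M} (hN : X.Cn N) {a : Ω} (ha : X.Cont a)
    (h : N ≤ stabilizer M a) : stabilizer M a ≤ stabilizer M (X.gen N a) := by
  have hg := isGen_gen hN ha
  have hs : ({a} : Set Ω) ∈ X.gen N a := by
    rw [← orb_of_le_stab h]
    exact hg.mem
  have hs_c : X.Cont ({a} : Set Ω) := hg.ult.cont _ hs
  have hP : ∀ P : Set Ω, X.Cont P → (P ∈ X.gen N a ↔ a ∈ P) := by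
    intro P hP
    constructor
    · intro h1
      obtain ⟨x, hx1, hx2⟩ := hg.ult.nonempty (hg.ult.inter _ h1 _ hs)
      rw [Set.mem_singleton_iff] at hx2
      rwa [← hx2]
    · intro h1
      exact hg.ult.mono _ hs _ hP (Set.singleton_subset_iff.2 h1)
  intro m hm
  rw [mem_stabilizer_iff] at hm ⊢
  ext P
  rw [Set.mem_smul_set_iff_inv_smul_mem]
  by_cases hPc : X.Cont P
  · rw [hP _ (hPc.smul _), hP _ hPc, Set.mem_inv_smul_set_iff, hm]
  · constructor
    · intro h
      exact absurd (cont_smul_iff.1 (hg.ult.cont _ h)) hPc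
    · intro h
      exact absurd (hg.ult.cont _ h) hPc

/-- For `f = gen N_f e` not fixing `e`, every conjugate `f'` of `f` has a companion `e'` with a
strictly bigger support. -/
theorem exists_bigger {e : Ω} {f : Ω'} {p : Set (Set Ω)} (he : X.Cont e)
    (hf : X.Cont f) (hp : X.gen (X.conn (stabilizer M f)) e = p)
    (hpf : X.conn (stabilizer M p) = X.conn (stabilizer M f))
    (hpc : X.Cont p) (hnot : ¬ X.conn (stabilizer M f) ≤ stabilizer M e) (m : M) :
    ∃ m' : M, m' • f = m • f ∧ (X.sp (m • f)).card < (X.sp (m' • e)).card := by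
  classical
  have hNf : X.Cn (X.conn (stabilizer M f)) := cn_conn hf
  have hfm : X.Cont (m • f) := hf.smul m
  have hNfm : X.Cn (X.conn (stabilizer M (m • f))) := cn_conn hfm
  have hS : X.Has (X.sp (m • f)) (X.conn (stabilizer M (m • f))) := has_conn hfm (sup_sp hfm)
  obtain ⟨e', he', hq, _⟩ := exists_good hNfm hS (he.smul m) ∅
  obtain ⟨n, hn, rfl⟩ := he'
  have hnf : n • m • f = m • f := mem_stabilizer_iff.1 (conn_le hfm hn)
  refine ⟨n * m, by rw [mul_smul, hnf], ?_⟩
  rw [mul_smul]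
  have hec : X.Cont (n • m • e) := (he.smul m).smul n
  have hgen : X.gen (X.conn (stabilizer M (m • f))) (m • e) = m • p := by
    rw [← cj_conn_stab hf, gen_smul hNf he, hp]
  rw [hgen] at hq
  have hsp : X.sp (m • p) = X.sp (m • f) := by
    unfold sp
    rw [← Has.eq_supp_of_conn (hpc.smul m), ← Has.eq_supp_of_conn (hf.smul m),
      ← cj_conn_stab hpc, ← cj_conn_stab hf, hpf]
  have hsub : X.sp (m • f) ⊆ X.sp (n • m • e) := by
    rw [← hsp]
    apply (sp_subset (hpc.smul m) (S := X.sp (m • f) ∩ X.sp (n • m • e)) ?_).trans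
      Finset.inter_subset_right
    rw [hq, q_inter hec]
    exact sup_q hec _
  apply Finset.card_lt_card
  refine Finset.ssubset_iff_subset_ne.2 ⟨hsub, fun heq => hnot ?_⟩
  have hsup : X.Sup (X.sp (m • f)) (n • m • e) := by
    rw [heq]
    exact sup_sp hec
  have h1 : X.conn (stabilizer M (m • f)) ≤ stabilizer M (X.q (n • m • e) (X.sp (m • f))) := by
    rw [← hq, ← hgen]
    exact (isGen_gen hNfm (he.smul m)).inv
  have h2 := le_stab_of_sup hec hsup h1
  rw [← hnf, ← mul_smul, ← mul_smul, ← cj_conn_stab hf, stab_smul, le_cj_iff, ← cj_mul,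
    inv_mul_cancel, cj_one] at h2
  exact h2

/-- J7 : one-basedness. -/
theorem one_based {N : Subgroup M} (hN : X.Cn N) {a : Ω} (ha : X.Cont a) :
    X.conn (stabilizer M a) ≤ stabilizer M (X.gen N a) := by
  by_contra hcon
  have hNa : X.Cn (X.conn (stabilizer M a)) := cn_conn ha
  have he : X.Cont (X.gen N a) := cont_gen hN ha
  have hea : X.gen (X.conn (stabilizer M (X.gen N a))) a = X.gen N a := gen_conn_gen hN ha
  set e := X.gen N a with he_def
  have hf : X.Cont (X.gen (X.conn (stabilizer M a)) e) := cont_gen hNa he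
  have hNaf := le_conn_gen hNa he
  have hfe := gen_conn_gen hNa he
  set f := X.gen (X.conn (stabilizer M a)) e with hf_def
  have hNf : X.Cn (X.conn (stabilizer M f)) := cn_conn hf
  have hnotf : ¬ X.conn (stabilizer M f) ≤ stabilizer M e := fun h => hcon (hNaf.trans h)
  -- `e` is independent from `a` over `f`
  have hind : X.Ind (X.conn (stabilizer M f)) e (stabilizer M a) := by
    rw [ind_iff_gen hNf ha he, hfe]
    have : X.ext (X.conn (stabilizer M f)) (stabilizer M a) = X.conn (stabilizer M a) := by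
      unfold ext
      apply le_antisymm
      · exact conn_mono (X.opn_inf hNf.opn ha) inf_le_right
      · exact hNa.le_conn (X.opn_inf hNf.opn ha) (le_inf hNaf (conn_le ha))
    rw [this]
  have hind' := ind_symm hNf he ha hind
  have hNe : X.Cn (X.conn (stabilizer M e)) := cn_conn he
  have hp : X.Cont (X.gen (X.conn (stabilizer M e)) f) := cont_gen hNe hf
  have hclaim := conn_stab_gen_le ha he hf hind'
  rw [hea] at hclaim
  have hNep := le_conn_gen hNe hf
  set p := X.gen (X.conn (stabilizer M e)) f with hp_def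
  have hpe : X.conn (stabilizer M p) = X.conn (stabilizer M e) := by
    apply le_antisymm
    · exact (cn_conn hp).le_conn he hclaim
    · exact hNep
  have hnote : ¬ X.conn (stabilizer M e) ≤ stabilizer M f := by
    intro h
    apply hnotf
    have h1 : stabilizer M f ≤ stabilizer M p := stab_le_gen_of_le hNe hf h
    exact (conn_mono hf h1).trans hclaim
  -- the supports grow
  obtain ⟨K, hK⟩ := exists_bound hf
  have hgrow : ∀ n : ℕ, ∃ m : M, n ≤ (X.sp (m • f)).card := by
    intro n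
    induction n with
    | zero => exact ⟨1, Nat.zero_le _⟩
    | succ n ih =>
      obtain ⟨m, hm⟩ := ih
      obtain ⟨m1, _, hm1⟩ := exists_bigger he hf hfe rfl hf hnotf m
      obtain ⟨m2, _, hm2⟩ := exists_bigger hf he hp_def.symm hpe hp hnote m1
      exact ⟨m2, by omega⟩
  obtain ⟨m, hm⟩ := hgrow (K + 1)
  have := hK m
  omega

end Ctx

end Reducts
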